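import Pool.Agent.H46.HP.Fin

set_option autoImplicit false

namespace Pool.Agent.Results.MP_6c5ec8_lc.EveryDelta

open Pool.Agent.H30.Hped Pool.Agent.H46.HP Pool.Agent.H72.NP

/-- **The complexity of recognising drawings that admit a `δ`-HPED, for every real `δ`.**
`Hped δ` is the language of all bit strings that encode a straight-line drawing which admits a
`δ`-HPED, `Cut δ` the language of all bit strings that encode a rational number greater than `δ`.

1. There is a rational threshold `θ Γ`, computable in polynomial time from the drawing `Γ`, such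
that, for every real `δ ∈ (0, 1/2)`, `Γ` admits a `δ`-HPED if and only if `δ < θ Γ`.
2. `Hped δ` and `Cut δ` are polynomial-time many-one equivalent, by the same two reductions for all
real `δ ∈ (0, 1/2)`.
3. Hence `Hped δ` is in P if and only if `Cut δ` is in P, for every real `δ ∈ (0, 1/2)`.
4. `Hped δ` is in P for every algebraic number `δ ∈ (0, 1/2)`.
5. If `Hped δ` is NP-hard for some real `δ ∈ (0, 1/2)`, then P = NP.
6. The problem whose input is a rational number `δ ∈ (0, 1/2)` and a drawing is in P. -/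
theorem result :
    (∃ θ : Drawing → ℚ, PolyTimeFun encDrawing encRat θ ∧ ∀ Γ : Drawing, 0 < θ Γ ∧ θ Γ ≤ 1 / 2 ∧
      ∀ δ : ℝ, 0 < δ → δ < 1 / 2 → (AdmitsHPED δ Γ ↔ δ < (θ Γ : ℝ))) ∧
    (∃ f g : List Bool → List Bool,
      PolyTimeFun (id : List Bool → List Bool) (id : List Bool → List Bool) f ∧
      PolyTimeFun (id : List Bool → List Bool) (id : List Bool → List Bool) g ∧
      ∀ δ : ℝ, 0 < δ → δ < 1 / 2 → ∀ w : List Bool,
        (Hped δ w ↔ Cut δ (f w)) ∧ (Cut δ w ↔ Hped δ (g w))) ∧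
    (∀ δ : ℝ, 0 < δ → δ < 1 / 2 →
      (Pool.Agent.H83.TK.InP (id : List Bool → List Bool) {w | Hped δ w} ↔
        Pool.Agent.H83.TK.InP (id : List Bool → List Bool) {w | Cut δ w})) ∧
    (∀ δ : ℝ, 0 < δ → δ < 1 / 2 → IsAlgebraic ℚ δ →
      Pool.Agent.H83.TK.InP (id : List Bool → List Bool) {w | Hped δ w}) ∧
    (∀ δ : ℝ, 0 < δ → δ < 1 / 2 → NPHard (id : List Bool → List Bool) (Hped δ) →
      Pool.Agent.H83.TK.PeqNP) ∧
    Pool.Agent.H83.TK.InP (id : List Bool → List Bool)
      {w | ∃ (δ : ℚ) (Γ : Drawing), bitPair (encRat δ) (encDrawing Γ) = w ∧ 0 < δ ∧ δ < 1 / 2 ∧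
        AdmitsHPED (δ : ℝ) Γ} :=
  ⟨part_threshold, part_reductions, fun _ h0 h1 => part_equiv h0 h1,
    fun _ h0 h1 h => (part_equiv h0 h1).mpr (part_cut_algebraic h),
    fun _ h0 h1 h => part_hard h0 h1 h, part_uniform⟩

end Pool.Agent.Results.MP_6c5ec8_lc.EveryDelta
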